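import Pool.Agent.Helper42.RD.Goals1

/-!
# Packet RD-COR: a datum whose Selmer group consists of `p`-th powers
-/

namespace Pool.Agent.Helper5.RD

open NumberField Polynomial Module IsDedekindDomain TensorProduct Pool.Agent.Helper51.SigLeo
open Pool.Agent.Helper51.RP Pool.Agent.Helper42.RD

theorem d_cor (h1 : D_DSC) (h2 : D_FIN) (h3 : D_SLG) : D_COR := by
  intro p _ k _ _ _ _ hne L K M _ _ _ _ _ _ _ m δ ζ Φ P hP hδ hm hTor T hT hTc
  classical
  by_contra hcon
  push Not at hcon
  obtain ⟨n, hn⟩ := h2 p M
  have key : ∀ j : ℕ, ∃ (R : Set (HeightOneSpectrum (𝓞 M))) (al : HeightOneSpectrum (𝓞 M) → K),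
      IsDat p R al ∧
      (∀ x : Mˣ, SelD L (above T) P δ R al x →
        ∀ w : HeightOneSpectrum (𝓞 M), (p : ℤ) ∣ ordv w (x : M)) ∧
      ∃ F : Finset Mˣ, F.card = j + 1 ∧ 1 ∈ F ∧
        (∀ x ∈ F, ∀ w : HeightOneSpectrum (𝓞 M), (p : ℤ) ∣ ordv w (x : M)) ∧
        ∀ x ∈ F, ∀ y ∈ F, x ≠ y → ¬ SelD L (above T) P δ R al (x / y) := by
    intro j
    induction j with
    | zero =>
      refine ⟨∅, fun _ => 1, ?_, ?_, {1}, ?_, ?_, ?_, ?_⟩
      · exact ⟨Set.finite_empty, fun w hw => absurd hw (Set.notMem_empty w),
          fun w hw => absurd hw (Set.notMem_empty w), fun w hw => absurd hw (Set.notMem_empty w),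
          fun w hw => absurd hw (Set.notMem_empty w), fun w hw => absurd hw (Set.notMem_empty w),
          fun w hw => absurd hw (Set.notMem_empty w)⟩
      · intro x hx w
        exact (hx.loc w).1 (Set.notMem_empty w)
      · simp
      · simp
      · intro x hx w
        rw [Finset.mem_singleton] at hx
        rw [hx, Units.val_one]
        have : ordv w (1 : M) = 0 := by
          unfold ordv
          rw [map_one, WithZero.log_one, neg_zero]
        rw [this]
        exact dvd_zero _
      · intro x hx y hy hxy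
        rw [Finset.mem_singleton] at hx hy
        exact absurd (hx.trans hy.symm) hxy
    | succ j ih =>
      obtain ⟨R, al, hR, hae, F, hF1, hF2, hF3, hF4⟩ := ih
      obtain ⟨R', al', hR', hb1, x, hx1, hx2⟩ := h1 p k hne L K M m δ ζ Φ P hP hδ hm hTor T hT
        hTc R al hR (by
          obtain ⟨x, hx, hx'⟩ := hcon R al hR
          exact ⟨x, hx, hx'⟩)
      obtain ⟨G, hG, _, _⟩ := h3 p k L K M δ P T R al hR
      obtain ⟨G', hG', hG's, _⟩ := h3 p k L K M δ P T R' al' hR'
      have h1G' : (1 : Mˣ) ∈ G' := G'.one_mem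
      have hxne : x ≠ 1 := by
        rintro rfl
        exact hx2 ((hG' 1).1 h1G')
      have hxG : x ∈ G := (hG x).2 hx1
      have hxF : x ∉ F := by
        intro hx
        have := hF4 x hx 1 hF2 hxne
        rw [div_one] at this
        exact this hx1
      refine ⟨R', al', hR', ?_, insert x F, ?_, ?_, ?_, ?_⟩
      · intro y hy w
        exact hae y (hb1 y hy) w
      · rw [Finset.card_insert_of_notMem hxF, hF1]
      · exact Finset.mem_insert_of_mem hF2
      · intro y hy w
        rcases Finset.mem_insert.1 hy with rfl | hy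
        · exact hae _ hx1 w
        · exact hF3 y hy w
      · have aux : ∀ y ∈ F, ¬ SelD L (above T) P δ R' al' (x / y) := by
          intro y hy hs
          by_cases hy1 : y = 1
          · subst hy1
            rw [div_one] at hs
            exact hx2 hs
          · have h7 : x / y ∈ G := (hG _).2 (hb1 _ hs)
            have h8 : (1 : Mˣ) / y ∈ G := by
              have h9 : (1 : Mˣ) / y = x⁻¹ * (x / y) := by
                rw [one_div, div_eq_mul_inv, inv_mul_cancel_left]
              rw [h9]
              exact G.mul_mem (G.inv_mem hxG) h7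
            exact hF4 1 hF2 y hy (Ne.symm hy1) ((hG _).1 h8)
        intro y hy z hz hyz hs
        rcases Finset.mem_insert.1 hy with h7 | h7
        · rcases Finset.mem_insert.1 hz with h8 | h8
          · exact hyz (h7.trans h8.symm)
          · rw [h7] at hs
            exact aux z h8 hs
        · rcases Finset.mem_insert.1 hz with h8 | h8
          · rw [h8] at hs
            refine aux y h7 ((hG' _).1 ?_)
            have h9 : x / y = (y / x)⁻¹ := (inv_div y x).symm
            rw [h9]
            exact G'.inv_mem ((hG' _).2 hs)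
          · exact hF4 y h7 z h8 hyz (hb1 _ hs)
  obtain ⟨R, al, hR, _, F, hF1, _, hF3, hF4⟩ := key n
  obtain ⟨G, hG, hGs, _⟩ := h3 p k L K M δ P T R al hR
  have := hn F hF3 fun x hx y hy hxy hs => hF4 x hx y hy hxy ((hG _).1 (hGs _ hs))
  omega

end Pool.Agent.Helper5.RD
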